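import Pool.Agent.H15.TG.Targets

/-!
Board `tga_modules`, row CFC: the centralizer of `f` is factorially closed.
-/

set_option autoImplicit false

namespace Pool.Agent.H79.TG

open MvPolynomial Pool.Agent.H2.ST Pool.Agent.H15.TG

theorem pf_CFC (hLFC : T_LFC) : T_CFC := by
  intro k _ _ _ m d W K H f h a b hab hmem
  have hK : a * b ∈ K := (mem_Cf.1 hmem).1
  have hbr : br f (a * b) = 0 := (mem_Cf.1 hmem).2
  obtain ⟨haK, hbK⟩ := h.fc a b hab hK
  let D : ↥K → ↥K := fun x => ⟨br f x.1, h.bk f h.fK x.1 x.2⟩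
  have hD : ∀ x : ↥K, (D x).1 = br f x.1 := fun x => rfl
  have hit : ∀ (n : ℕ) (x : ↥K), (D^[n] x).1 = (br f)^[n] x.1 := by
    intro n
    induction n with
    | zero => intro x; rfl
    | succ n ih =>
      intro x
      rw [Function.iterate_succ_apply', Function.iterate_succ_apply', hD, ih]
  have hL : LND D := by
    refine ⟨?_, ?_, ?_⟩
    · intro x y
      apply Subtype.ext
      exact br_add f x.1 y.1
    · intro x y
      apply Subtype.ext
      exact br_mul f x.1 y.1
    · intro x
      obtain ⟨n, hn⟩ := h.fl x.1 x.2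
      refine ⟨n, Subtype.ext ?_⟩
      rw [hit, hn]
      rfl
  have hdom : IsDomain ↥K := inferInstance
  have hch : CharZero ↥K := by
    refine ⟨fun p q hpq => ?_⟩
    have h1 : ((p : ↥K) : Pol k m) = ((q : ↥K) : Pol k m) := congrArg _ hpq
    simpa using h1
  have key := hLFC ↥K D hL ⟨a, haK⟩ ⟨b, hbK⟩
    (by
      intro h0
      exact hab (congrArg Subtype.val h0))
    (by
      apply Subtype.ext
      exact hbr)
  exact ⟨mem_Cf.2 ⟨haK, congrArg Subtype.val key.1⟩, mem_Cf.2 ⟨hbK, congrArg Subtype.val key.2⟩⟩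

end Pool.Agent.H79.TG
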